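import Mathlib

/-!
# Positive definite extensions of `1 - |ξ|^α` beyond Romanov's number

Romanov's extension of `1 - |ξ|^α` from `[-1,1]` is the 4-periodic one that is odd about `ξ = 1`; its
Fourier coefficients are nonnegative exactly for `α ≤ α₀`, and at `α = α₀` only the coefficients at
the frequencies `± 3π/2` vanish. Adding a small multiple of the 4-periodic function that is
`1 + cos (3π(ξ - 2))` on `[1,3]` and `0` on `[-1,1]` makes these coefficients positive and keeps all
others nonnegative, so that `1 - |ξ|^α` has a positive definite extension for some `α > α₀`.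
-/

set_option autoImplicit false

namespace Pool.Agent.V1179.Romanov

open MeasureTheory Set Filter Topology intervalIntegral

/-- The integrals up to `ω`. -/
noncomputable def J (α ω : ℝ) : ℝ := ∫ t in (0 : ℝ)..ω, Real.cos t / t ^ (2 - α)

/-- `ω_k = (2k+1)π/2`. -/
noncomputable def w (k : ℕ) : ℝ := (2 * k + 1) * Real.pi / 2

theorem w_pos (k : ℕ) : 0 < w k := by unfold w; positivity

theorem integrable_kernel {α : ℝ} (hα : 1 < α) {a b : ℝ} (ha : 0 ≤ a) (hb : 0 ≤ b) :
    IntervalIntegrable (fun t => Real.cos t / t ^ (2 - α)) volume a b := by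
  have h1 : IntervalIntegrable (fun t : ℝ => t ^ (α - 2)) volume a b :=
    intervalIntegral.intervalIntegrable_rpow' (by linarith)
  have h2 : IntervalIntegrable (fun t : ℝ => t ^ (α - 2) * Real.cos t) volume a b :=
    h1.mul_continuousOn Real.continuous_cos.continuousOn
  refine h2.congr ?_
  intro t ht
  have ht0 : 0 < t := lt_of_le_of_lt (le_min ha hb) ht.1
  simp only
  rw [div_eq_mul_inv, ← Real.rpow_neg ht0.le, neg_sub, mul_comm]

theorem J_sub {α : ℝ} (hα : 1 < α) {a b : ℝ} (ha : 0 ≤ a) (hb : 0 ≤ b) :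
    J α b - J α a = ∫ t in a..b, Real.cos t / t ^ (2 - α) :=
  intervalIntegral.integral_interval_sub_left (integrable_kernel hα le_rfl hb)
    (integrable_kernel hα le_rfl ha)

/-- Over a pair of consecutive half periods starting with a positive one the integral is `≥ 0`. -/
theorem pair_nonneg {α : ℝ} (hα : 1 < α) (hα2 : α < 2) (j : ℕ) :
    J α (w (2 * j + 1)) < J α (w (2 * j + 3)) := by
  have hpi := Real.pi_pos
  set a := w (2 * j + 1) with ha
  have ha0 : 0 < a := w_pos _
  have hb : w (2 * j + 3) = a + Real.pi + Real.pi := by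
    rw [ha]; unfold w; push_cast; ring
  rw [← sub_pos, hb, J_sub hα ha0.le (by positivity)]
  rw [← intervalIntegral.integral_add_adjacent_intervals (b := a + Real.pi)
    (integrable_kernel hα ha0.le (by positivity))
    (integrable_kernel hα (by positivity) (by positivity))]
  have h1 : ∫ t in (a + Real.pi)..(a + Real.pi + Real.pi), Real.cos t / t ^ (2 - α)
      = ∫ t in a..(a + Real.pi), Real.cos (t + Real.pi) / (t + Real.pi) ^ (2 - α) := by
    rw [intervalIntegral.integral_comp_add_right (fun t => Real.cos t / t ^ (2 - α)) Real.pi]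
  have hint2 : IntervalIntegrable (fun t => Real.cos (t + Real.pi) / (t + Real.pi) ^ (2 - α))
      volume a (a + Real.pi) := by
    have := (integrable_kernel hα (a := a + Real.pi) (b := a + Real.pi + Real.pi)
      (by positivity) (by positivity)).comp_add_right Real.pi
    simpa using this
  rw [h1, ← intervalIntegral.integral_add (integrable_kernel hα ha0.le (by positivity)) hint2]
  apply intervalIntegral.intervalIntegral_pos_of_pos_on
  · exact (integrable_kernel hα ha0.le (by positivity)).add hint2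
  · intro t ht
    have ht0 : 0 < t := ha0.trans ht.1
    have hcos : 0 < Real.cos t := by
      have h2 : Real.cos t = Real.cos (t - (j + 1 : ℕ) * (2 * Real.pi)) :=
        (Real.cos_sub_nat_mul_two_pi t (j + 1)).symm
      rw [h2]
      apply Real.cos_pos_of_mem_Ioo
      have h3 : a = 3 * Real.pi / 2 + j * (2 * Real.pi) := by
        rw [ha]; unfold w; push_cast; ring
      rw [h3] at ht
      push_cast
      constructor
      · linarith [ht.1]
      · linarith [ht.2]
    have h4 : t ^ (2 - α) < (t + Real.pi) ^ (2 - α) :=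
      Real.rpow_lt_rpow ht0.le (by linarith) (by linarith)
    have h5 : 0 < t ^ (2 - α) := Real.rpow_pos_of_pos ht0 _
    rw [Real.cos_add_pi, neg_div, ← sub_eq_add_neg, sub_pos]
    exact div_lt_div_of_pos_left hcos h5 h4
  · linarith

theorem half_nonpos {α : ℝ} (hα : 1 < α) (j : ℕ) :
    J α (w (2 * j + 1)) ≤ J α (w (2 * j)) := by
  have hpi := Real.pi_pos
  rw [← sub_nonpos, J_sub hα (w_pos _).le (w_pos _).le]
  have hle : w (2 * j) ≤ w (2 * j + 1) := by unfold w; push_cast; nlinarith
  rw [← neg_nonneg, ← intervalIntegral.integral_neg]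
  apply intervalIntegral.integral_nonneg hle
  intro t ht
  have ht0 : 0 < t := (w_pos _).trans_le ht.1
  have hcos : Real.cos t ≤ 0 := by
    have h2 : Real.cos t = Real.cos (t - (j : ℕ) * (2 * Real.pi)) :=
      (Real.cos_sub_nat_mul_two_pi t j).symm
    rw [h2]
    have h3 : w (2 * j) = Real.pi / 2 + j * (2 * Real.pi) := by unfold w; push_cast; ring
    have h4 : w (2 * j + 1) = Real.pi / 2 + j * (2 * Real.pi) + Real.pi := by
      unfold w; push_cast; ring
    rw [h3, h4] at ht
    apply Real.cos_nonpos_of_pi_div_two_le_of_le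
    · linarith [ht.1]
    · linarith [ht.2]
  have h5 : 0 < t ^ (2 - α) := Real.rpow_pos_of_pos ht0 _
  rw [← neg_div]
  exact div_nonneg (by linarith) h5.le

theorem odd_ge {α : ℝ} (hα : 1 < α) (hα2 : α < 2) (j : ℕ) :
    J α (w 3) ≤ J α (w (2 * j + 3)) := by
  induction j with
  | zero => simp
  | succ j ih =>
    have := pair_nonneg hα hα2 (j + 1)
    have h2 : 2 * (j + 1) + 1 = 2 * j + 3 := by ring
    rw [h2] at this
    linarith

/-- All the integrals up to `ω_k` with `k ≥ 2` are at least the one with `k = 3`. -/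
theorem J_ge {α : ℝ} (hα : 1 < α) (hα2 : α < 2) {k : ℕ} (hk : 2 ≤ k) : J α (w 3) ≤ J α (w k) := by
  rcases Nat.even_or_odd' k with ⟨j, rfl | rfl⟩
  · have h1 := half_nonpos hα j
    obtain ⟨i, rfl⟩ := Nat.exists_eq_add_of_le (show 1 ≤ j by omega)
    have h2 := odd_ge hα hα2 i
    have h3 : 2 * (1 + i) + 1 = 2 * i + 3 := by ring
    rw [h3] at h1
    linarith
  · obtain ⟨i, rfl⟩ := Nat.exists_eq_add_of_le (show 1 ≤ j by omega)
    have h2 := odd_ge hα hα2 i
    have h3 : 2 * (1 + i) + 1 = 2 * i + 3 := by ring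
    rw [h3]
    exact h2

theorem J_zero_pos {α : ℝ} (hα : 1 < α) : 0 < J α (w 0) := by
  have hpi := Real.pi_pos
  unfold J
  apply intervalIntegral.intervalIntegral_pos_of_pos_on
  · exact integrable_kernel hα le_rfl (w_pos _).le
  · intro t ht
    have h1 : w 0 = Real.pi / 2 := by unfold w; push_cast; ring
    rw [h1] at ht
    exact div_pos (Real.cos_pos_of_mem_Ioo ⟨by linarith [ht.1], ht.2⟩)
      (Real.rpow_pos_of_pos ht.1 _)
  · exact w_pos _

/-- Continuity of the integrals in `α`, from the right. -/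
theorem J_tendsto {α₀ : ℝ} (hα : 1 < α₀) (hα2 : α₀ < 2) {ω : ℝ} (hω : 0 ≤ ω) :
    Tendsto (fun α => J α ω) (𝓝[>] α₀) (𝓝 (J α₀ ω)) := by
  unfold J
  apply intervalIntegral.tendsto_integral_filter_of_dominated_convergence
    (fun t => t ^ (α₀ - 2) + 1)
  · refine Eventually.of_forall fun α => ?_
    apply Measurable.aestronglyMeasurable
    fun_prop
  · have h1 : ∀ᶠ α in 𝓝[>] α₀, α < 2 := by
      filter_upwards [nhdsWithin_le_nhds (Iio_mem_nhds hα2)] with α h using h
    filter_upwards [h1, self_mem_nhdsWithin] with α h2 h3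
    refine Eventually.of_forall fun t ht => ?_
    rw [uIoc_of_le hω] at ht
    have ht0 := ht.1
    have h3' : α₀ < α := h3
    rw [div_eq_mul_inv, ← Real.rpow_neg ht0.le, neg_sub, norm_mul, Real.norm_eq_abs,
      Real.norm_eq_abs, abs_of_pos (Real.rpow_pos_of_pos ht0 _)]
    have h4 : |Real.cos t| ≤ 1 := Real.abs_cos_le_one t
    have h5 : t ^ (α - 2) ≤ t ^ (α₀ - 2) + 1 := by
      rcases le_total t 1 with h | h
      · have := Real.rpow_le_rpow_of_exponent_ge ht0 h (show α₀ - 2 ≤ α - 2 by linarith)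
        linarith
      · have := Real.rpow_le_one_of_one_le_of_nonpos h (show α - 2 ≤ 0 by linarith)
        have h6 : 0 < t ^ (α₀ - 2) := Real.rpow_pos_of_pos ht0 _
        linarith
    have h6 : 0 < t ^ (α - 2) := Real.rpow_pos_of_pos ht0 _
    nlinarith
  · exact (intervalIntegral.intervalIntegrable_rpow' (by linarith)).add
      intervalIntegrable_const
  · refine Eventually.of_forall fun t ht => ?_
    rw [uIoc_of_le hω] at ht
    have ht0 := ht.1
    have h1 : Continuous fun α : ℝ => Real.cos t / t ^ (2 - α) := by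
      apply Continuous.div continuous_const
      · exact Real.continuous_const_rpow ht0.ne' |>.comp (by fun_prop)
      · intro α
        exact (Real.rpow_pos_of_pos ht0 _).ne'
    exact (h1.tendsto α₀).mono_left nhdsWithin_le_nhds


/-! ### Cosine integrals -/

/-- `∫_{-1}^{1} cos (a x) dx`. -/
noncomputable def S (a : ℝ) : ℝ := ∫ x in (-1 : ℝ)..1, Real.cos (a * x)

theorem S_zero : S 0 = 2 := by unfold S; simp; norm_num

theorem S_eq {a : ℝ} (ha : a ≠ 0) : S a = 2 * Real.sin a / a := by
  unfold S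
  rw [intervalIntegral.integral_comp_mul_left (fun x => Real.cos x) ha, integral_cos]
  simp
  field_simp
  ring

/-- `∫_{-1}^{1} (1 - |x|^α) cos (ω x) dx`. -/
noncomputable def A (α ω : ℝ) : ℝ := ∫ x in (-1 : ℝ)..1, (1 - |x| ^ α) * Real.cos (ω * x)

/-- `∫_{-1}^{1} (1 + cos (3πx)) cos (ω x) dx`. -/
noncomputable def B (ω : ℝ) : ℝ := ∫ x in (-1 : ℝ)..1, (1 + Real.cos (3 * Real.pi * x)) * Real.cos (ω * x)

theorem B_eq (ω : ℝ) : B ω = S ω + S (ω + 3 * Real.pi) / 2 + S (ω - 3 * Real.pi) / 2 := by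
  have h : ∀ x : ℝ, (1 + Real.cos (3 * Real.pi * x)) * Real.cos (ω * x)
      = Real.cos (ω * x) + Real.cos ((ω + 3 * Real.pi) * x) / 2 +
        Real.cos ((ω - 3 * Real.pi) * x) / 2 := by
    intro x
    rw [add_mul ω, sub_mul ω, Real.cos_add, Real.cos_sub]
    ring
  unfold B S
  simp_rw [h]
  rw [intervalIntegral.integral_add, intervalIntegral.integral_add]
  · simp
  all_goals
    apply Continuous.intervalIntegrable
    fun_prop

theorem S_int_nonneg (m : ℤ) : 0 ≤ S (m * Real.pi) := by
  by_cases hm : m = 0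
  · subst hm; simp [S_zero]
  · have : (m : ℝ) * Real.pi ≠ 0 := mul_ne_zero (by exact_mod_cast hm) Real.pi_ne_zero
    rw [S_eq this, Real.sin_int_mul_pi]
    simp

theorem B_int_nonneg (m : ℤ) : 0 ≤ B (m * Real.pi) := by
  rw [B_eq]
  have h1 := S_int_nonneg m
  have h2 := S_int_nonneg (m + 3)
  have h3 := S_int_nonneg (m - 3)
  have e2 : (m : ℝ) * Real.pi + 3 * Real.pi = ((m + 3 : ℤ) : ℝ) * Real.pi := by push_cast; ring
  have e3 : (m : ℝ) * Real.pi - 3 * Real.pi = ((m - 3 : ℤ) : ℝ) * Real.pi := by push_cast; ring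
  rw [e2, e3]
  linarith

theorem sin_w (k : ℕ) : Real.sin (w k) = (-1) ^ k := by
  have : w k = Real.pi / 2 + k * Real.pi := by unfold w; ring
  rw [this, Real.sin_add_nat_mul_pi]
  simp

theorem cos_w (k : ℕ) : Real.cos (w k) = 0 := by
  have : w k = Real.pi / 2 + k * Real.pi := by unfold w; ring
  rw [this, Real.cos_add_nat_mul_pi]
  simp

theorem w_sub_ne (k : ℕ) : w k - 3 * Real.pi ≠ 0 := by
  intro h
  have h1 : (2 * (k : ℝ) + 1) / 2 = 3 := by
    have : ((2 * (k : ℝ) + 1) / 2 - 3) * Real.pi = 0 := by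
      rw [← h]; unfold w; ring
    have := (mul_eq_zero.1 this).resolve_right Real.pi_ne_zero
    linarith
  have h2 : (2 * (k : ℝ) + 1) = 6 := by linarith
  have h3 : 2 * k + 1 = 6 := by exact_mod_cast h2
  omega

theorem B_w (k : ℕ) : B (w k) = -(-1) ^ k * (18 * Real.pi ^ 2) / (w k * (w k ^ 2 - 9 * Real.pi ^ 2)) := by
  have hpi := Real.pi_pos
  have hw := w_pos k
  have h1 : w k + 3 * Real.pi ≠ 0 := by positivity
  have h2 := w_sub_ne k
  have h3 : w k ^ 2 - 9 * Real.pi ^ 2 ≠ 0 := by
    have : w k ^ 2 - 9 * Real.pi ^ 2 = (w k + 3 * Real.pi) * (w k - 3 * Real.pi) := by ring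
    rw [this]
    exact mul_ne_zero h1 h2
  have hs1 : Real.sin (w k + 3 * Real.pi) = - (-1) ^ k := by
    have : w k + 3 * Real.pi = w k + Real.pi + 2 * Real.pi := by ring
    rw [this, Real.sin_add_two_pi, Real.sin_add_pi, sin_w]
  have hs2 : Real.sin (w k - 3 * Real.pi) = - (-1) ^ k := by
    have : w k - 3 * Real.pi = w k - Real.pi - 2 * Real.pi := by ring
    rw [this, Real.sin_sub_two_pi, Real.sin_sub_pi, sin_w]
  rw [B_eq, S_eq hw.ne', S_eq h1, S_eq h2, sin_w, hs1, hs2]
  have h4 : w k ^ 2 - 9 * Real.pi ^ 2 = (w k + 3 * Real.pi) * (w k - 3 * Real.pi) := by ring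
  rw [h4]
  field_simp
  ring

theorem B_w_one : B (w 1) = - (16 / (9 * Real.pi)) := by
  rw [B_w]
  have hpi := Real.pi_ne_zero
  unfold w
  push_cast
  field_simp
  ring

theorem abs_B_w_le (k : ℕ) : |B (w k)| ≤ 72 * Real.pi ^ 2 / w k ^ 3 := by
  have hpi := Real.pi_pos
  have hw := w_pos k
  rw [B_w, abs_div, abs_mul, abs_neg, abs_pow, abs_neg, abs_one, one_pow, one_mul,
    abs_of_pos (by positivity : (0 : ℝ) < 18 * Real.pi ^ 2), abs_mul, abs_of_pos hw]
  have key : w k ^ 2 ≤ 4 * |w k ^ 2 - 9 * Real.pi ^ 2| := by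
    have h1 : w k ^ 2 = ((2 * k + 1) ^ 2 : ℝ) * (Real.pi ^ 2 / 4) := by unfold w; ring
    rcases Nat.lt_or_ge k 3 with h | h
    · have h2 : (2 * (k : ℝ) + 1) ≤ 5 := by
        have : (k : ℝ) ≤ 2 := by exact_mod_cast (show k ≤ 2 by omega)
        linarith
      have h3 : (2 * (k : ℝ) + 1) ^ 2 ≤ 25 := by nlinarith
      have h4 : w k ^ 2 - 9 * Real.pi ^ 2 ≤ 0 := by rw [h1]; nlinarith [sq_nonneg Real.pi]
      rw [abs_of_nonpos h4, h1]
      nlinarith [sq_nonneg Real.pi]
    · have h2 : 7 ≤ (2 * (k : ℝ) + 1) := by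
        have : (3 : ℝ) ≤ k := by exact_mod_cast h
        linarith
      have h3 : 49 ≤ (2 * (k : ℝ) + 1) ^ 2 := by nlinarith
      have h4 : 0 ≤ w k ^ 2 - 9 * Real.pi ^ 2 := by rw [h1]; nlinarith [sq_nonneg Real.pi]
      rw [abs_of_nonneg h4, h1]
      nlinarith [sq_nonneg Real.pi]
  have hne : 0 < |w k ^ 2 - 9 * Real.pi ^ 2| := by
    by_contra h
    push Not at h
    nlinarith [sq_nonneg (w k), mul_pos hw hw]
  rw [div_le_div_iff₀ (by positivity) (by positivity)]
  have : w k ^ 3 = w k * w k ^ 2 := by ring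
  rw [this]
  have h5 : 0 < Real.pi ^ 2 * w k := by positivity
  nlinarith [mul_le_mul_of_nonneg_left key h5.le]

theorem A_eq_two_mul (α ω : ℝ) (hα : 0 < α) :
    A α ω = 2 * ∫ x in (0 : ℝ)..1, (1 - x ^ α) * Real.cos (ω * x) := by
  have hc : Continuous fun x : ℝ => (1 - |x| ^ α) * Real.cos (ω * x) := by
    have : Continuous fun x : ℝ => |x| ^ α := continuous_abs.rpow_const fun _ => Or.inr hα.le
    fun_prop
  unfold A
  rw [← intervalIntegral.integral_add_adjacent_intervals (b := 0) (hc.intervalIntegrable _ _)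
    (hc.intervalIntegrable _ _)]
  have h1 : ∫ x in (-1 : ℝ)..0, (1 - |x| ^ α) * Real.cos (ω * x)
      = ∫ x in (0 : ℝ)..1, (1 - |x| ^ α) * Real.cos (ω * x) := by
    have := intervalIntegral.integral_comp_neg (a := 0) (b := 1)
      (fun x : ℝ => (1 - |x| ^ α) * Real.cos (ω * x))
    rw [neg_zero] at this
    rw [← this]
    simp
  have h2 : ∫ x in (0 : ℝ)..1, (1 - |x| ^ α) * Real.cos (ω * x)
      = ∫ x in (0 : ℝ)..1, (1 - x ^ α) * Real.cos (ω * x) := by
    apply intervalIntegral.integral_congr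
    intro x hx
    rw [uIcc_of_le zero_le_one] at hx
    simp only [abs_of_nonneg hx.1]
  rw [h1, h2]
  ring

/-- Integration by parts twice, when `cos ω = 0`. -/
theorem A_parts {α ω : ℝ} (hα : 1 < α) (hω : ω ≠ 0) (hc : Real.cos ω = 0) :
    A α ω = 2 * α * (α - 1) / ω ^ 2 * ∫ x in (0 : ℝ)..1, x ^ (α - 2) * Real.cos (ω * x) := by
  rw [A_eq_two_mul α ω (by linarith)]
  have h1 : ∫ x in (0 : ℝ)..1, (1 - x ^ α) * Real.cos (ω * x)
      = α / ω * ∫ x in (0 : ℝ)..1, x ^ (α - 1) * Real.sin (ω * x) := by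
    have := intervalIntegral.integral_mul_deriv_eq_deriv_mul_of_hasDerivAt (a := 0) (b := 1)
      (u := fun x : ℝ => 1 - x ^ α) (u' := fun x => -(α * x ^ (α - 1)))
      (v := fun x => Real.sin (ω * x) / ω) (v' := fun x => Real.cos (ω * x)) ?_ ?_ ?_ ?_ ?_ ?_
    · rw [this, ← intervalIntegral.integral_const_mul]
      simp only [Real.one_rpow, sub_self, zero_mul, mul_zero, Real.sin_zero, zero_div, zero_sub,
        ← intervalIntegral.integral_neg, sub_zero]
      apply intervalIntegral.integral_congr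
      intro x _
      simp only
      ring
    · exact (continuous_const.sub (continuous_id.rpow_const fun _ => Or.inr (by linarith))).continuousOn
    · fun_prop
    · intro x hx
      rw [min_eq_left zero_le_one, max_eq_right zero_le_one] at hx
      have := (Real.hasDerivAt_rpow_const (x := x) (p := α) (Or.inl hx.1.ne')).const_sub 1
      exact this
    · intro x _
      have h2 := ((hasDerivAt_id x).const_mul ω).sin.div_const ω
      refine h2.congr_deriv ?_
      simp only [id, mul_one]
      field_simp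
    · apply Continuous.intervalIntegrable
      exact (continuous_const.mul (continuous_id.rpow_const fun _ => Or.inr (by linarith))).neg
    · apply Continuous.intervalIntegrable
      fun_prop
  have h2 : ∫ x in (0 : ℝ)..1, x ^ (α - 1) * Real.sin (ω * x)
      = (α - 1) / ω * ∫ x in (0 : ℝ)..1, x ^ (α - 2) * Real.cos (ω * x) := by
    have := intervalIntegral.integral_mul_deriv_eq_deriv_mul_of_hasDerivAt (a := 0) (b := 1)
      (u := fun x : ℝ => x ^ (α - 1)) (u' := fun x => (α - 1) * x ^ (α - 1 - 1))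
      (v := fun x => -Real.cos (ω * x) / ω) (v' := fun x => Real.sin (ω * x)) ?_ ?_ ?_ ?_ ?_ ?_
    · rw [this, ← intervalIntegral.integral_const_mul]
      rw [Real.zero_rpow (by linarith)]
      simp only [mul_one, hc, neg_zero, zero_div, mul_zero, zero_mul, zero_sub, sub_zero,
        ← intervalIntegral.integral_neg]
      apply intervalIntegral.integral_congr
      intro x _
      simp only
      rw [show α - 1 - 1 = α - 2 by ring]
      ring
    · exact (continuous_id.rpow_const fun _ => Or.inr (by linarith)).continuousOn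
    · fun_prop
    · intro x hx
      rw [min_eq_left zero_le_one, max_eq_right zero_le_one] at hx
      exact Real.hasDerivAt_rpow_const (x := x) (p := α - 1) (Or.inl hx.1.ne')
    · intro x _
      have h2 := (((hasDerivAt_id x).const_mul ω).cos.neg).div_const ω
      refine h2.congr_deriv ?_
      simp only [id, mul_one]
      field_simp
    · exact (intervalIntegral.intervalIntegrable_rpow' (by linarith)).const_mul _
    · apply Continuous.intervalIntegrable
      fun_prop
  rw [h1, h2]
  field_simp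

theorem A_w {α : ℝ} (hα : 1 < α) (k : ℕ) :
    A α (w k) = 2 * α * (α - 1) / w k ^ 2 * ((w k) ^ (1 - α) * J α (w k)) := by
  have hw := w_pos k
  rw [A_parts hα hw.ne' (cos_w k)]
  congr 1
  unfold J
  have h1 := intervalIntegral.integral_comp_mul_left (a := 0) (b := 1)
    (fun t => Real.cos t / t ^ (2 - α)) hw.ne'
  rw [mul_zero, mul_one] at h1
  have h2 : ∫ t in (0 : ℝ)..(w k), Real.cos t / t ^ (2 - α)
      = w k * ∫ x in (0 : ℝ)..1, Real.cos (w k * x) / (w k * x) ^ (2 - α) := by
    rw [h1, smul_eq_mul]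
    field_simp
  rw [h2, ← intervalIntegral.integral_const_mul, ← intervalIntegral.integral_const_mul]
  apply intervalIntegral.integral_congr_ae
  refine Eventually.of_forall fun x hx => ?_
  rw [uIoc_of_le zero_le_one] at hx
  have hx0 := hx.1
  rw [Real.mul_rpow hw.le hx0.le, div_eq_mul_inv, mul_inv, ← Real.rpow_neg hw.le,
    ← Real.rpow_neg hx0.le, neg_sub]
  have h3 : w k ^ (1 - α) * (w k * (w k) ^ (α - 2)) = 1 := by
    nth_rewrite 2 [← Real.rpow_one (w k)]
    rw [← Real.rpow_add hw, ← Real.rpow_add hw]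
    have : 1 - α + (1 + (α - 2)) = 0 := by ring
    rw [this, Real.rpow_zero]
  calc x ^ (α - 2) * Real.cos (w k * x)
      = (w k ^ (1 - α) * (w k * (w k) ^ (α - 2))) * (x ^ (α - 2) * Real.cos (w k * x)) := by
        rw [h3, one_mul]
    _ = _ := by ring

theorem abs_A_w_le {α : ℝ} (hα : 1 < α) (k : ℕ) : |A α (w k)| ≤ 2 * α / w k ^ 2 := by
  have hw := w_pos k
  rw [A_parts hα hw.ne' (cos_w k), abs_mul, abs_of_nonneg (by
    have : 0 < α - 1 := by linarith
    positivity : (0 : ℝ) ≤ 2 * α * (α - 1) / w k ^ 2)]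
  have h1 : |∫ x in (0 : ℝ)..1, x ^ (α - 2) * Real.cos (w k * x)| ≤ 1 / (α - 1) := by
    have h2 : ∫ x in (0 : ℝ)..1, x ^ (α - 2) = 1 / (α - 1) := by
      rw [integral_rpow (Or.inl (by linarith))]
      have : α - 2 + 1 = α - 1 := by ring
      rw [this, Real.one_rpow, Real.zero_rpow (by linarith)]
      ring
    rw [← h2, ← Real.norm_eq_abs]
    apply intervalIntegral.norm_integral_le_of_norm_le zero_le_one
    · refine Eventually.of_forall fun x hx => ?_
      rw [norm_mul, Real.norm_eq_abs, Real.norm_eq_abs, abs_of_pos (Real.rpow_pos_of_pos hx.1 _)]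
      have := Real.abs_cos_le_one (w k * x)
      have h3 := Real.rpow_pos_of_pos hx.1 (α - 2)
      nlinarith
    · exact intervalIntegral.intervalIntegrable_rpow' (by linarith)
  have h3 : 0 < α - 1 := by linarith
  calc 2 * α * (α - 1) / w k ^ 2 * |∫ x in (0 : ℝ)..1, x ^ (α - 2) * Real.cos (w k * x)|
      ≤ 2 * α * (α - 1) / w k ^ 2 * (1 / (α - 1)) := by gcongr
    _ = 2 * α / w k ^ 2 := by field_simp

end Pool.Agent.V1179.Romanov
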